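import Pool.Agent.helper77.PV.SpecK

/-! # Row pvk:KSH of project pv (MP_376aaf) -/

set_option autoImplicit false

namespace Pool.Agent.PV

open Pool.Agent.CZ Pool.Agent.PVH

theorem KSH_lift {G S : Type} [AddCommGroup G] [AddCommGroup S] (rm : ℤ → S →+ G) (y : ℤ →₀ S) :
    (y.sum fun k v => rm k v) = Finsupp.liftAddHom rm y := rfl

theorem KSH_up {S : Type} [AddCommGroup S] (y : ℤ →₀ S) (m : ℤ) (h : ∀ k, m ≤ k → y k = y (k + 1)) : y m = 0 := by
  obtain ⟨N, hN⟩ := Finset.exists_le y.support
  have h1 : ∀ n : ℕ, y m = y (m + n) := by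
    intro n
    induction n with
    | zero => simp
    | succ n ih =>
      rw [ih, h (m + n) (by omega)]
      congr 1
      push_cast
      ring
  by_contra hne
  have h2 := hN (m + (N - m + 1).toNat) (by
    rw [Finsupp.mem_support_iff, ← h1]
    exact hne)
  omega

theorem KSH_down {S : Type} [AddCommGroup S] (y : ℤ →₀ S) (m : ℤ) (h : ∀ k, k < m → y k = y (k + 1)) : y m = 0 := by
  obtain ⟨N, hN⟩ : ∃ N : ℤ, ∀ i ∈ y.support, N ≤ i := by
    obtain ⟨N, hN⟩ := y.support.bddBelow
    exact ⟨N, fun i hi => hN (Finset.mem_coe.2 hi)⟩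
  have h1 : ∀ n : ℕ, y m = y (m - n) := by
    intro n
    induction n with
    | zero => simp
    | succ n ih =>
      rw [ih, h (m - (n + 1 : ℕ)) (by omega)]
      congr 1
      push_cast
      ring
  by_contra hne
  have h2 := hN (m - (m - N + 1).toNat) (by
    rw [Finsupp.mem_support_iff, ← h1]
    exact hne)
  omega

theorem KSH : KSH_stmt := by
  intro G₀ G S _ _ _ a₀ a jm rm hD
  obtain ⟨haj, har, hgen, hinj⟩ := hD
  set Sm : (ℤ →₀ S) →+ G := Finsupp.liftAddHom rm with hS
  set sh : (ℤ →₀ S) ≃+ (ℤ →₀ S) := Finsupp.domCongr (Equiv.subRight (1 : ℤ)) with hsh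
  have hsh' : ∀ y k, sh y k = y (k + 1) := fun y k => rfl
  have hs0 : ∀ k v, Sm (Finsupp.single k v) = rm k v := by
    intro k v
    rw [hS, Finsupp.liftAddHom_apply_single]
  have haS : ∀ y, a (Sm y) = Sm (sh y) := by
    intro y
    have h : a.comp Sm = Sm.comp sh.toAddMonoidHom := by
      refine Finsupp.addHom_ext fun k v => ?_
      have h1 : sh (Finsupp.single k v) = Finsupp.single (k - 1) v := by
        rw [hsh, Finsupp.domCongr_apply, Finsupp.equivMapDomain_single]
        rfl
      change a (Sm (Finsupp.single k v)) = Sm (sh (Finsupp.single k v))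
      rw [h1, hs0, hs0, har]
    exact DFunLike.congr_fun h y
  have hgen' : ∀ z : G, ∃ (x : G₀) (y : ℤ →₀ S), z = jm x + Sm y := hgen
  have hinj' : ∀ (x : G₀) (y : ℤ →₀ S), jm x + Sm y = 0 → x = 0 ∧ y = 0 := hinj
  refine ⟨?_, ?_, ?_, ?_⟩
  · intro z hz
    obtain ⟨x, y, rfl⟩ := hgen' z
    rw [map_add, haj, haS] at hz
    obtain ⟨h1, h2⟩ := hinj' (a₀ x - x) (sh y - y) (by
      rw [map_sub, map_sub, ← sub_eq_zero.2 hz]
      abel)
    have hy : y = 0 := by
      ext k
      refine KSH_up y k fun j _ => ?_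
      have := DFunLike.congr_fun h2 j
      rw [Finsupp.sub_apply, hsh', Finsupp.zero_apply, sub_eq_zero] at this
      exact this.symm
    refine ⟨x, sub_eq_zero.1 h1, ?_⟩
    rw [hy, map_zero, add_zero]
  · intro x s w hw
    obtain ⟨x', y, rfl⟩ := hgen' w
    rw [map_add, haj, haS] at hw
    obtain ⟨h1, h2⟩ := hinj' (x - (x' - a₀ x')) (Finsupp.single 0 s - (y - sh y)) (by
      rw [map_sub, map_sub, map_sub, map_sub, hs0]
      rw [← sub_eq_zero.2 hw]
      abel)
    have h3 : ∀ k, (Finsupp.single (0 : ℤ) s) k = y k - y (k + 1) := by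
      intro k
      have := DFunLike.congr_fun h2 k
      rw [Finsupp.sub_apply, Finsupp.sub_apply, hsh', Finsupp.zero_apply, sub_eq_zero] at this
      exact this
    have h4 : y 1 = 0 := by
      refine KSH_up y 1 fun k hk => ?_
      have := h3 k
      rw [Finsupp.single_eq_of_ne (by omega)] at this
      exact sub_eq_zero.1 this.symm
    have h5 : y 0 = 0 := by
      refine KSH_down y 0 fun k hk => ?_
      have := h3 k
      rw [Finsupp.single_eq_of_ne (by omega)] at this
      exact sub_eq_zero.1 this.symm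
    refine ⟨⟨x', sub_eq_zero.1 h1⟩, ?_⟩
    have := h3 0
    rw [Finsupp.single_eq_same, zero_add, h4, h5, sub_zero] at this
    exact this
  · intro z
    have key : ∀ (k : ℤ) (v : S), ∃ w, rm k v = rm 0 v + (w - a w) := by
      intro k v
      induction k using Int.induction_on with
      | zero => exact ⟨0, by simp⟩
      | succ k ih =>
        obtain ⟨w, hw⟩ := ih
        refine ⟨w + rm (k + 1) v, ?_⟩
        rw [map_add, har, add_sub_cancel_right, hw]
        abel
      | pred k ih =>
        obtain ⟨w, hw⟩ := ih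
        refine ⟨w - rm (-k) v, ?_⟩
        rw [map_sub, har, hw]
        abel
    have key2 : ∀ y : ℤ →₀ S, ∃ s w, Sm y = rm 0 s + (w - a w) := by
      intro y
      induction y using Finsupp.induction_linear with
      | zero => exact ⟨0, 0, by simp⟩
      | add f g hf hg =>
        obtain ⟨s, w, h⟩ := hf
        obtain ⟨s', w', h'⟩ := hg
        refine ⟨s + s', w + w', ?_⟩
        rw [map_add, h, h', map_add, map_add]
        abel
      | single k v =>
        obtain ⟨w, hw⟩ := key k v
        exact ⟨v, w, by rw [hs0]; exact hw⟩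
    obtain ⟨x, y, rfl⟩ := hgen' z
    obtain ⟨s, w, h⟩ := key2 y
    exact ⟨x, s, w, by rw [h]; abel⟩
  · rw [injective_iff_map_eq_zero]
    intro x hx
    exact (hinj' x 0 (by rw [hx, map_zero, add_zero])).1

end Pool.Agent.PV
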